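import Mathlib
import Pool.Agent.MP_e1108f_an.NotBlaschke

/-!
A weakly separated Blaschke sequence and a bounded analytic function, tending to zero along the
sequence, whose minimal-norm interpolant is unique but is not a constant multiple of a Blaschke
product.

In the coordinate `w = (1 + z)/(1 - z)` of the right half plane, let `S = exp (-w)`, let `B₁` be the
Blaschke product with zeros `2^(-k) (1 + 2 π i m)`, `k ≥ 1`, `|m| ≥ 16^k`, and let the nodes be the
zeros of `B₁`, the points `1 + 2 π i n` (where `S = 1/e`) and the point `1/2`.  Then `B₁ S` is the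
only element of the unit ball of `H^∞` having its values at the nodes.
-/

namespace Pool.Agent.Results.MP_e1108f_an.UniqueNotBlaschke

open Pool.Agent.MP_e1108f_an
open Metric Filter Topology
open scoped ComplexConjugate Real

lemma pt_zero (n : ℤ) : pt (0, n) = cay (lamZ n) := by
  unfold pt lam; simp

lemma pt_half : pt (1, 0) = cay ((1 / 2 : ℝ) : ℂ) := by
  unfold pt lam lamZ; simp

lemma B1_level_ne (n : ℤ) : B1 (cay (lamZ n)) ≠ 0 := by
  rw [← pt_zero]
  apply aJ_adm.ne_zero (pt_lt _)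
  intro j h
  have h1 := pt_injective h
  have h2 := j.2.1
  rw [← h1] at h2
  simp at h2

lemma core {G : ℂ → ℂ} (hG : DifferentiableOn ℂ G (ball 0 1))
    (hb : ∀ z ∈ ball (0 : ℂ) 1, ‖G z‖ ≤ 1) (h : ∀ p ∈ TT, G (pt p) = gg (pt p)) :
    Set.EqOn G gg (ball 0 1) := by
  have h1 : ∀ j : JJ, G (aJ j) = 0 := by
    intro j
    have := h j (JJ_sub j.2)
    show G (pt j) = 0
    rw [this]
    unfold gg
    have h2 : B1 (pt j) = 0 := aJ_adm.eq_zero j
    rw [h2, zero_mul]
  have hle : ∀ z ∈ ball (0 : ℂ) 1, ‖G z‖ ≤ ‖B1 z‖ := fun z hz =>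
    aJ_adm.norm_le_of_vanish aJ_inj hG hb h1 hz
  have hz0 : cay ((1 / 2 : ℝ) : ℂ) ∈ ball (0:ℂ) 1 := by
    simpa using cay_real_lt (t := 1 / 2) (by norm_num)
  have hB0 : B1 (cay ((1 / 2 : ℝ) : ℂ)) ≠ 0 := B1_real_ne (by norm_num)
  obtain ⟨Q, hQ, hQb, hfac⟩ := exists_quotient hG aJ_adm.differentiableOn hle hz0 hB0
  have hQ0 : ∀ n : ℤ, Q (cay (lamZ n)) = Complex.exp (-1) := by
    intro n
    have hre : 0 < (lamZ n).re := by rw [lamZ_re]; norm_num
    have hzb : cay (lamZ n) ∈ ball (0:ℂ) 1 := by simpa using cay_norm_lt hre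
    have h2 := h (0, n) (Or.inl rfl)
    rw [pt_zero, hfac _ hzb] at h2
    unfold gg at h2
    have h3 := mul_left_cancel₀ (B1_level_ne n) h2
    rw [h3]
    unfold SS
    rw [cayInv_cay hre, exp_neg_lamZ]
  have hQ1 : Q (cay ((1 / 2 : ℝ) : ℂ)) = SS (cay ((1 / 2 : ℝ) : ℂ)) := by
    have h2 := h (1, 0) (Or.inr (Or.inl rfl))
    rw [pt_half, hfac _ hz0] at h2
    unfold gg at h2
    exact mul_left_cancel₀ hB0 h2
  have hS : SS (cay ((1 / 2 : ℝ) : ℂ)) ≠ Complex.exp (-1) := by
    intro h3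
    have h4 := congrArg norm h3
    rw [SS_real (by norm_num), Complex.norm_exp] at h4
    have h5 := Real.exp_injective h4
    simp at h5
  have hQS := S_unique hQ hQb hQ0 hz0 hS hQ1
  intro z hz
  rw [hfac z hz, hQS hz]
  rfl

lemma gg_tendsto : Tendsto (fun p : TT => gg (pt p)) cofinite (𝓝 0) := by
  rw [Metric.tendsto_nhds]
  intro ε hε
  rw [Filter.eventually_cofinite]
  obtain ⟨K, hK⟩ : ∃ K : ℕ, Real.exp (-(K / 17 : ℝ)) < ε ^ 2 := by
    have ht : Tendsto (fun K : ℕ => Real.exp (-((K : ℝ) / 17))) atTop (𝓝 0) := by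
      apply Real.tendsto_exp_neg_atTop_nhds_zero.comp
      exact tendsto_natCast_atTop_atTop.atTop_div_const (by norm_num)
    exact (ht.eventually_lt_const (by positivity)).exists
  have hfin : Set.Finite {p : ℕ × ℤ | p.1 = 0 ∧ |p.2| ≤ 8 ^ K ∨ p = (1, 0)} := by
    apply Set.Finite.subset
      (((Set.finite_singleton 0).prod (Set.finite_Icc (-(8:ℤ) ^ K) (8 ^ K))).union
        (Set.finite_singleton (1, 0)))
    rintro ⟨k, m⟩ (⟨h1, h2⟩ | h1)
    · left
      simp only at h1 h2
      refine ⟨by simpa using h1, ?_⟩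
      have := abs_le.mp h2
      exact ⟨by simpa using this.1, this.2⟩
    · right; exact h1
  apply Set.Finite.of_finite_image (f := Subtype.val) _ Subtype.val_injective.injOn
  apply hfin.subset
  rintro _ ⟨⟨p, hp⟩, hp', rfl⟩
  have hp2 : ε ≤ ‖gg (pt p)‖ := by simpa using hp'
  rcases hp with h | h | h
  · left
    refine ⟨h, ?_⟩
    by_contra hlt
    push Not at hlt
    obtain ⟨k, n⟩ := p
    simp only at h hlt
    subst h
    have h1 := B1_small K n (by omega)
    rw [pt_zero] at hp2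
    have hre : 0 < (lamZ n).re := by rw [lamZ_re]; norm_num
    have h2 : ‖gg (cay (lamZ n))‖ ≤ ‖B1 (cay (lamZ n))‖ := by
      unfold gg
      rw [norm_mul]
      exact mul_le_of_le_one_right (norm_nonneg _) (SS_norm_le (cay_norm_lt hre))
    have h3 : ε ≤ ‖B1 (cay (lamZ n))‖ := hp2.trans h2
    have h4 : ε ^ 2 ≤ ‖B1 (cay (lamZ n))‖ ^ 2 := pow_le_pow_left₀ hε.le h3 2
    linarith
  · right; exact h
  · exfalso
    have h2 : gg (pt p) = 0 := by
      unfold gg
      have h2 : B1 (pt p) = 0 := aJ_adm.eq_zero ⟨p, h⟩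
      rw [h2, zero_mul]
    rw [h2, norm_zero] at hp2
    linarith

lemma bdd {f : ℂ → ℂ} (hf : IsHInfty f) :
    BddAbove (Set.range fun z : ball (0 : ℂ) 1 => ‖f z‖) := by
  obtain ⟨_, M, hM⟩ := hf
  exact ⟨M, by rintro _ ⟨z, rfl⟩; exact hM z z.2⟩

/-- There are a weakly separated Blaschke sequence `z` in the unit disc and `f ∈ H^∞` with
`f (z n) → 0` such that the minimal-norm interpolant of `f` on `z` is unique but is not a constant
multiple of a Blaschke product. -/
theorem result :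
    ∃ (z : ℕ → ℂ) (f g : ℂ → ℂ), IsBlaschkeSeq z ∧ IsWeaklySeparated z ∧ IsHInfty f ∧
      Tendsto (fun n => f (z n)) atTop (𝓝 0) ∧
      IsMinNormInterpolant z f g ∧
      (∀ h, IsMinNormInterpolant z f h → Set.EqOn h g (ball 0 1)) ∧
      ¬ ∃ (c : ℂ) (B : ℂ → ℂ), IsBlaschkeProduct B ∧
        Set.EqOn g (fun w => c * B w) (ball 0 1) := by
  have hinf : Infinite TT := by
    apply Infinite.of_injective (fun n : ℤ => (⟨(0, n), Or.inl rfl⟩ : TT))
    intro m n h
    have h1 := congrArg (fun p : TT => (p : ℕ × ℤ).2) h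
    exact h1
  obtain ⟨e⟩ : Nonempty (ℕ ≃ TT) := nonempty_equiv_of_countable
  have hgg : IsHInfty gg := ⟨gg_diff, 1, fun z hz => gg_norm (by simpa using hz)⟩
  have hval : ∀ {h : ℂ → ℂ}, (∀ n, h (pt (e n)) = gg (pt (e n))) →
      ∀ p ∈ TT, h (pt p) = gg (pt p) := by
    intro h hh p hp
    have := hh (e.symm ⟨p, hp⟩)
    simpa using this
  have hsup : supNorm gg ≤ 1 := by
    have : Nonempty (ball (0:ℂ) 1) := ⟨⟨0, by simp⟩⟩
    exact ciSup_le fun z => gg_norm (mem_ball_zero_iff.mp z.2)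
  -- interpolants in the unit ball
  have huniq : ∀ h : ℂ → ℂ, IsHInfty h → (∀ n, h (pt (e n)) = gg (pt (e n))) → supNorm h ≤ 1 →
      Set.EqOn h gg (ball 0 1) := by
    intro h hh hv hs
    apply core hh.1 _ (hval hv)
    intro z hz
    exact (le_ciSup (bdd hh) ⟨z, hz⟩).trans hs
  refine ⟨fun n => pt (e n), gg, gg, ⟨fun n => pt_lt _, ?_⟩, ⟨1 / 3, by norm_num, ?_⟩, hgg, ?_,
    ⟨hgg, fun _ => rfl, ?_⟩, ?_, not_blaschke⟩
  · exact TT_summable.comp_injective e.injective
  · intro m n hmn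
    apply pt_sep
    intro h
    exact hmn (e.injective (Subtype.val_injective h))
  · have := gg_tendsto.comp e.injective.tendsto_cofinite
    rw [Nat.cofinite_eq_atTop] at this
    exact this
  · intro h hh hv
    rcases le_or_gt (supNorm h) 1 with h1 | h1
    · have h2 := huniq h hh hv h1
      have h3 : supNorm gg = supNorm h := by
        unfold supNorm
        congr 1
        funext z
        rw [h2 z.2]
      exact h3.le
    · exact hsup.trans h1.le
  · intro h hh
    apply huniq h hh.1 hh.2.1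
    exact (hh.2.2 gg hgg (fun _ => rfl)).trans hsup

end Pool.Agent.Results.MP_e1108f_an.UniqueNotBlaschke
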